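import Pool.Agent.Q78.WI.Stm

/-!
# Project WI (helper78), job C4: derivatives of inverse and determinant along a curve
-/

set_option autoImplicit false

namespace Pool.Agent.Q129.WI

open Filter Topology Set
open Pool.Agent.Q78.WI

namespace C4

variable {d : ℕ}

theorem diff_det : Differentiable ℝ (fun a : Fin d → Fin d → ℝ => (Matrix.of a).det) := by
  have h : (fun a : Fin d → Fin d → ℝ => (Matrix.of a).det) =
      fun a => ∑ σ : Equiv.Perm (Fin d), (((Equiv.Perm.sign σ : ℤˣ) : ℤ) : ℝ) * ∏ i, a (σ i) i := by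
    funext a
    rw [Matrix.det_apply']
    rfl
  rw [h]
  intro a
  refine DifferentiableAt.fun_sum fun σ _ => ?_
  refine DifferentiableAt.const_mul ?_ _
  have hd : ∀ i, Differentiable ℝ (fun a : Fin d → Fin d → ℝ => a (σ i) i) := fun i => by fun_prop
  exact (HasFDerivAt.finsetProd (u := Finset.univ) (fun i _ => (hd i a).hasFDerivAt)).differentiableAt

theorem diff_adj (i j : Fin d) : Differentiable ℝ (fun a : Fin d → Fin d → ℝ => (Matrix.of a).adjugate i j) := by
  have h : (fun a : Fin d → Fin d → ℝ => (Matrix.of a).adjugate i j) =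
      fun a => (Matrix.of ((fun (a : Fin d → Fin d → ℝ) (r c : Fin d) =>
        if r = j then (Pi.single i (1 : ℝ) : Fin d → ℝ) c else a r c) a)).det := by
    funext a
    rw [Matrix.adjugate_apply]
    congr 1
    ext r c
    rw [Matrix.updateRow_apply]
    rfl
  rw [h]
  refine diff_det.comp (f := fun (a : Fin d → Fin d → ℝ) (r c : Fin d) =>
        if r = j then (Pi.single i (1 : ℝ) : Fin d → ℝ) c else a r c) ?_
  rw [differentiable_pi]
  intro r
  rw [differentiable_pi]
  intro c
  by_cases hr : r = j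
  · simp only [if_pos hr]
    exact differentiable_const _
  · simp only [if_neg hr]
    fun_prop

theorem diff_inv (i j : Fin d) (a : Fin d → Fin d → ℝ) (ha : (Matrix.of a).det ≠ 0) :
    DifferentiableAt ℝ (fun a : Fin d → Fin d → ℝ => (Matrix.of a)⁻¹ i j) a := by
  have h : (fun a : Fin d → Fin d → ℝ => (Matrix.of a)⁻¹ i j) =
      fun a => ((Matrix.of a).det)⁻¹ * (Matrix.of a).adjugate i j := by
    funext a
    rw [Matrix.inv_def, Ring.inverse_eq_inv', Matrix.smul_apply, smul_eq_mul]
  rw [h]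
  exact ((diff_det a).inv ha).mul (diff_adj i j a)

/-- the line -/
theorem line (A B : Matrix (Fin d) (Fin d) ℝ) :
    HasDerivAt (fun t : ℝ => (fun i j => A i j + t * B i j : Fin d → Fin d → ℝ)) (fun i j => B i j) 0 := by
  rw [hasDerivAt_pi]
  intro i
  rw [hasDerivAt_pi]
  intro j
  have h := ((hasDerivAt_id (0 : ℝ)).mul_const (B i j)).const_add (A i j)
  simpa using h

theorem line_eq (A B : Matrix (Fin d) (Fin d) ℝ) (t : ℝ) :
    Matrix.of (fun i j => A i j + t * B i j) = A + t • B := by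
  ext i j
  rfl

theorem det_line (A B : Matrix (Fin d) (Fin d) ℝ) (hA : A.det ≠ 0) :
    HasDerivAt (fun t : ℝ => (A + t • B).det) (A.det * (A⁻¹ * B).trace) 0 := by
  have hu : IsUnit A.det := isUnit_iff_ne_zero.2 hA
  have h1 : ∀ t : ℝ, (A + t • B).det = A.det *
      ((1 + (Polynomial.X : Polynomial ℝ) • (A⁻¹ * B).map Polynomial.C).det).eval t := by
    intro t
    have h2 : A + t • B = A * (1 + t • (A⁻¹ * B)) := by
      rw [mul_add, mul_one, mul_smul_comm, ← Matrix.mul_assoc, Matrix.mul_nonsing_inv _ hu, Matrix.one_mul]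
    rw [h2, Matrix.det_mul]
    congr 1
    rw [← Polynomial.coe_evalRingHom, RingHom.map_det]
    congr 1
    generalize A⁻¹ * B = N
    ext i j
    simp [Matrix.one_apply]
    by_cases hij : i = j
    · simp [hij]
      exact mul_comm _ _
    · simp [hij]
      exact mul_comm _ _
  have h3 : (fun t : ℝ => (A + t • B).det) = fun t => A.det *
      ((1 + (Polynomial.X : Polynomial ℝ) • (A⁻¹ * B).map Polynomial.C).det).eval t := funext h1
  rw [h3]
  refine HasDerivAt.const_mul _ ?_
  have h4 := ((1 + (Polynomial.X : Polynomial ℝ) • (A⁻¹ * B).map Polynomial.C).det).hasDerivAt (0 : ℝ)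
  rw [Matrix.derivative_det_one_add_X_smul] at h4
  exact h4

theorem inv_line (A B : Matrix (Fin d) (Fin d) ℝ) (hA : A.det ≠ 0)
    (L : Fin d → Fin d → ℝ) (hL : ∀ i j, HasDerivAt (fun t : ℝ => (A + t • B)⁻¹ i j) (L i j) 0) :
    ∀ i j, L i j = (-(A⁻¹ * B * A⁻¹)) i j := by
  have hu : IsUnit A.det := isUnit_iff_ne_zero.2 hA
  have hev : ∀ᶠ t in 𝓝 (0 : ℝ), (A + t • B).det ≠ 0 := by
    have h1 := (det_line A B hA).continuousAt
    refine h1.eventually_ne ?_
    simpa using hA
  have key : B * A⁻¹ + A * Matrix.of L = 0 := by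
    ext i j
    have h2 : HasDerivAt (fun t : ℝ => ∑ k, (A i k + t * B i k) * (A + t • B)⁻¹ k j)
        (∑ k, (B i k * A⁻¹ k j + A i k * L k j)) 0 := by
      refine HasDerivAt.fun_sum fun k _ => ?_
      have h3 : HasDerivAt (fun t : ℝ => A i k + t * B i k) (B i k) 0 := by
        have h := ((hasDerivAt_id (0 : ℝ)).mul_const (B i k)).const_add (A i k)
        simpa using h
      have h4 := h3.fun_mul (hL k j)
      simpa using h4
    have h5 : (fun t : ℝ => ∑ k, (A i k + t * B i k) * (A + t • B)⁻¹ k j) =ᶠ[𝓝 0]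
        fun _ => (1 : Matrix (Fin d) (Fin d) ℝ) i j := by
      filter_upwards [hev] with t ht
      have h6 : (A + t • B) * (A + t • B)⁻¹ = 1 := Matrix.mul_nonsing_inv _ (isUnit_iff_ne_zero.2 ht)
      rw [← h6, Matrix.mul_apply]
      rfl
    have h7 : HasDerivAt (fun t : ℝ => ∑ k, (A i k + t * B i k) * (A + t • B)⁻¹ k j) 0 0 :=
      (hasDerivAt_const (0 : ℝ) ((1 : Matrix (Fin d) (Fin d) ℝ) i j)).congr_of_eventuallyEq h5
    have h8 := h2.unique h7
    rw [Finset.sum_add_distrib] at h8
    rw [Matrix.add_apply, Matrix.mul_apply, Matrix.mul_apply]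
    exact h8
  have h9 : Matrix.of L = -(A⁻¹ * B * A⁻¹) := by
    have h10 : A⁻¹ * (B * A⁻¹ + A * Matrix.of L) = 0 := by rw [key, Matrix.mul_zero]
    rw [Matrix.mul_add, ← Matrix.mul_assoc, ← Matrix.mul_assoc, Matrix.nonsing_inv_mul _ hu, Matrix.one_mul] at h10
    exact eq_neg_of_add_eq_zero_right h10
  intro i j
  rw [← h9]
  rfl

end C4

open C4 in
theorem c4 : S_C4 := by
  intro d M M' S x hM hdet
  have hne : (M x).det ≠ 0 := hdet.ne'
  have hcurve : HasDerivWithinAt (fun s => (fun i j => M s i j : Fin d → Fin d → ℝ)) (fun i j => M' i j) S x := by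
    rw [hasDerivWithinAt_pi]
    intro i
    rw [hasDerivWithinAt_pi]
    intro j
    exact hM i j
  have hl0 : (fun i j => M x i j + 0 * M' i j : Fin d → Fin d → ℝ) = fun i j => M x i j := by
    funext i j
    rw [zero_mul, add_zero]
  have hof : Matrix.of (fun i j => M x i j) = M x := rfl
  refine ⟨fun i j => ?_, ?_⟩
  · have hF : ∀ i j, HasFDerivAt (fun a : Fin d → Fin d → ℝ => (Matrix.of a)⁻¹ i j)
        (fderiv ℝ (fun a : Fin d → Fin d → ℝ => (Matrix.of a)⁻¹ i j) (fun i j => M x i j)) (fun i j => M x i j) :=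
      fun i j => (diff_inv i j _ hne).hasFDerivAt
    have hline : ∀ i j, HasDerivAt (fun t : ℝ => (M x + t • M')⁻¹ i j)
        (fderiv ℝ (fun a : Fin d → Fin d → ℝ => (Matrix.of a)⁻¹ i j) (fun i j => M x i j) (fun i j => M' i j)) 0 := by
      intro i j
      have h1 := hF i j
      rw [← hl0] at h1
      have h2 := h1.comp_hasDerivAt (0 : ℝ) (line (M x) M')
      rw [hl0] at h2
      exact h2
    have hval := inv_line (M x) M' hne _ hline i j
    have h3 := (hF i j).comp_hasDerivWithinAt x hcurve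
    rw [hval] at h3
    exact h3
  · have hF : HasFDerivAt (fun a : Fin d → Fin d → ℝ => (Matrix.of a).det)
        (fderiv ℝ (fun a : Fin d → Fin d → ℝ => (Matrix.of a).det) (fun i j => M x i j)) (fun i j => M x i j) :=
      (diff_det _).hasFDerivAt
    have h1 := hF
    rw [← hl0] at h1
    have h2 := h1.comp_hasDerivAt (0 : ℝ) (line (M x) M')
    rw [hl0] at h2
    have h3 : HasDerivAt (fun t : ℝ => (M x + t • M').det)
        (fderiv ℝ (fun a : Fin d → Fin d → ℝ => (Matrix.of a).det) (fun i j => M x i j) (fun i j => M' i j)) 0 := h2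
    have h4 := h3.unique (det_line (M x) M' hne)
    have h5 := hF.comp_hasDerivWithinAt x hcurve
    rw [h4] at h5
    exact h5

end Pool.Agent.Q129.WI
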